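import Pool.Agent.Q284.PX.Stm

/-!
# Project PX, job TB2: the prescribed values

The classes `D p < 20 n / 11` and `D p ≥ 20 n / 11` are treated with the cumulative count.
-/

set_option autoImplicit false

open Finset Polynomial ComplexConjugate
open Pool.Agent.H341R2.Sharp (Mon)

namespace Pool.Agent.Q249.PX

open Pool.Agent.Q284.PS Pool.Agent.Q284.PX

lemma exp_le_rpow {q t : ℝ} (hq : 3 ≤ q) (ht : 0 ≤ t) : Real.exp t ≤ q ^ t := by
  have hl : 1 ≤ Real.log q := by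
    rw [Real.le_log_iff_exp_le (by linarith)]
    have := Real.exp_one_lt_d9
    linarith
  rw [Real.rpow_def_of_pos (by linarith)]
  apply Real.exp_le_exp.mpr
  nlinarith

lemma count_le (hC : S_CNT) {F : Type} [Field F] [Fintype F] (hq : 3 ≤ qq F) {d : ℕ} (hd : 1 ≤ d)
    (M : ℝ) (S : Finset (F[X] × ℕ × (F[X] → ℂ)))
    (hS : ∀ p ∈ S, Prim p.1 p.2.1 p.2.2 ∧
      ((d * (p.1.natDegree + max 2 p.2.1 - 1) : ℕ) : ℝ) ≤ M) :
    (S.card : ℝ) ≤ 4 * qq F ^ (2 * M / d) := by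
  have hq0 : (0 : ℝ) < qq F := by linarith
  rcases S.eq_empty_or_nonempty with rfl | ⟨p0, hp0⟩
  · simp only [Finset.card_empty, Nat.cast_zero]
    positivity
  have hM : 0 ≤ M := le_trans (by positivity) (hS p0 hp0).2
  have hd0 : (0 : ℝ) < d := by exact_mod_cast hd
  obtain ⟨hfin, hcard⟩ := hC F 2 (⌊M / d⌋₊ + 1)
  have hsub : (S : Set (F[X] × ℕ × (F[X] → ℂ))) ⊆
      {p | Prim p.1 p.2.1 p.2.2 ∧ p.1.natDegree + max 2 p.2.1 ≤ ⌊M / d⌋₊ + 1} := by
    intro p hp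
    obtain ⟨h1, h2⟩ := hS p hp
    refine ⟨h1, ?_⟩
    have h3 : p.1.natDegree + max 2 p.2.1 - 1 ≤ ⌊M / d⌋₊ := by
      apply Nat.le_floor
      rw [le_div_iff₀ hd0]
      push_cast at h2
      linarith [mul_comm (d : ℝ) ((p.1.natDegree + max 2 p.2.1 - 1 : ℕ) : ℝ)]
    omega
  have h1 : (S.card : ℝ) ≤ ({p : F[X] × ℕ × (F[X] → ℂ) | Prim p.1 p.2.1 p.2.2 ∧
      p.1.natDegree + max 2 p.2.1 ≤ ⌊M / d⌋₊ + 1}.ncard : ℝ) := by
    have := Set.ncard_le_ncard hsub hfin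
    rw [Set.ncard_coe_finset] at this
    exact_mod_cast this
  have h2 : (S.card : ℝ) * qq F ^ 2 ≤ 4 * qq F ^ (2 * (⌊M / d⌋₊ + 1)) :=
    le_trans (mul_le_mul_of_nonneg_right h1 (by positivity)) hcard
  have h3 : (S.card : ℝ) ≤ 4 * qq F ^ (2 * ⌊M / d⌋₊) := by
    have e : qq F ^ (2 * (⌊M / d⌋₊ + 1)) = qq F ^ (2 * ⌊M / d⌋₊) * qq F ^ 2 := by ring
    rw [e, ← mul_assoc] at h2
    exact le_of_mul_le_mul_right h2 (by positivity)
  refine h3.trans ?_
  have h4 : qq F ^ (2 * ⌊M / d⌋₊) ≤ qq F ^ (2 * M / d) := by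
    rw [← Real.rpow_natCast]
    apply Real.rpow_le_rpow_of_exponent_le (by linarith)
    push_cast
    have := Nat.floor_le (show 0 ≤ M / d by positivity)
    calc 2 * (⌊M / (d : ℝ)⌋₊ : ℝ) ≤ 2 * (M / d) := by linarith
      _ = 2 * M / d := by ring
  linarith

lemma w2_sq (q : ℝ) (hq : 0 < q) (d n : ℕ) :
    w2 q d n ^ 2 = q ^ ((2 - 5 / (d : ℝ)) * n) / (n : ℝ) ^ 5 := by
  unfold w2
  rw [div_pow, ← Real.rpow_natCast (q ^ _), ← Real.rpow_mul hq.le, ← Real.rpow_natCast ((n : ℝ) ^ _),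
    ← Real.rpow_mul (Nat.cast_nonneg n)]
  congr 1
  · congr 1
    push_cast
    rcases Nat.eq_zero_or_pos d with rfl | hd
    · simp [mul_comm]
    · have : (d : ℝ) ≠ 0 := by positivity
      field_simp
  · rw [← Real.rpow_natCast]
    norm_num

/-- the numerical inequality for the first class -/
lemma numA {q : ℝ} {d n : ℕ} (hq : 3 ≤ q) (hd : 10 ^ 6 ≤ d) (hn : 9 * d ≤ 20 * n) :
    4 * q ^ (2 * ((20 : ℝ) * n / 11) / d) * q ^ ((n : ℝ) + 9 * n / 11 * (1 - 5 / (d : ℝ))) ≤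
      1 / 50 * BB ^ 2 * (q ^ ((2 - 5 / (d : ℝ)) * n) / (n : ℝ) ^ 5) := by
  have hq0 : 0 < q := by linarith
  have hd' : (10 ^ 6 : ℝ) ≤ d := by exact_mod_cast hd
  have hd0 : (0 : ℝ) < d := by linarith
  have hn' : 9 * (d : ℝ) ≤ 20 * n := by exact_mod_cast hn
  have hn1 : (450000 : ℝ) ≤ n := by linarith
  have hn0 : (0 : ℝ) < n := by linarith
  have hx : (n : ℝ) / d ≤ n / 10 ^ 6 := by
    apply div_le_div_of_nonneg_left hn0.le (by norm_num) hd'
  have key : 4 * 50 * (n : ℝ) ^ 5 ≤ BB ^ 2 * q ^ ((17 : ℝ) / 100 * n) := by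
    have h1 : ((17 : ℝ) / 100 * n) ^ 10 / (Nat.factorial 10 : ℝ) ≤ q ^ ((17 : ℝ) / 100 * n) :=
      (Real.pow_div_factorial_le_exp _ (by positivity) 10).trans (exp_le_rpow hq (by positivity))
    have h2 : 4 * 50 * (n : ℝ) ^ 5 ≤ BB ^ 2 * (((17 : ℝ) / 100 * n) ^ 10 / (Nat.factorial 10 : ℝ)) := by
      have h3 : (450000 : ℝ) ^ 5 ≤ (n : ℝ) ^ 5 := pow_le_pow_left₀ (by norm_num) hn1 5
      have e : BB ^ 2 * (((17 : ℝ) / 100 * n) ^ 10 / (Nat.factorial 10 : ℝ)) =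
          (BB ^ 2 * (((17 : ℝ) / 100) ^ 10 / (Nat.factorial 10 : ℝ)) * (n : ℝ) ^ 5) * (n : ℝ) ^ 5 := by
        ring
      rw [e]
      apply mul_le_mul_of_nonneg_right _ (by positivity)
      have h4 : BB ^ 2 * (((17 : ℝ) / 100) ^ 10 / (Nat.factorial 10 : ℝ)) * 450000 ^ 5 ≤
          BB ^ 2 * (((17 : ℝ) / 100) ^ 10 / (Nat.factorial 10 : ℝ)) * (n : ℝ) ^ 5 :=
        mul_le_mul_of_nonneg_left h3 (by positivity)
      refine le_trans ?_ h4
      unfold BB
      norm_num [Nat.factorial]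
    have hB : (0 : ℝ) ≤ BB ^ 2 := by positivity
    exact h2.trans (mul_le_mul_of_nonneg_left h1 hB)
  have e1 : q ^ (2 * ((20 : ℝ) * n / 11) / d) * q ^ ((n : ℝ) + 9 * n / 11 * (1 - 5 / (d : ℝ))) *
      q ^ ((17 : ℝ) / 100 * n) ≤ q ^ ((2 - 5 / (d : ℝ)) * n) := by
    rw [← Real.rpow_add hq0, ← Real.rpow_add hq0]
    apply Real.rpow_le_rpow_of_exponent_le (by linarith)
    have e2 : 2 * ((20 : ℝ) * n / 11) / d + ((n : ℝ) + 9 * n / 11 * (1 - 5 / (d : ℝ))) +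
        (17 : ℝ) / 100 * n = (20 / 11 + 17 / 100) * n - 5 / 11 * (n / d) := by
      field_simp
      ring
    have e3 : (2 - 5 / (d : ℝ)) * n = 2 * n - 5 * (n / d) := by
      field_simp
    rw [e2, e3]
    linarith
  have hn5 : (0 : ℝ) < (n : ℝ) ^ 5 := by positivity
  rw [← mul_div_assoc (1 / 50 * BB ^ 2), le_div_iff₀ hn5]
  have hP : 0 < q ^ (2 * ((20 : ℝ) * n / 11) / d) * q ^ ((n : ℝ) + 9 * n / 11 * (1 - 5 / (d : ℝ))) := by
    positivity
  calc 4 * q ^ (2 * ((20 : ℝ) * n / 11) / d) * q ^ ((n : ℝ) + 9 * n / 11 * (1 - 5 / (d : ℝ))) * (n : ℝ) ^ 5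
      = 1 / 50 * ((q ^ (2 * ((20 : ℝ) * n / 11) / d) * q ^ ((n : ℝ) + 9 * n / 11 * (1 - 5 / (d : ℝ)))) *
        (4 * 50 * (n : ℝ) ^ 5)) := by ring
    _ ≤ 1 / 50 * ((q ^ (2 * ((20 : ℝ) * n / 11) / d) * q ^ ((n : ℝ) + 9 * n / 11 * (1 - 5 / (d : ℝ)))) *
        (BB ^ 2 * q ^ ((17 : ℝ) / 100 * n))) := by
        apply mul_le_mul_of_nonneg_left _ (by norm_num)
        exact mul_le_mul_of_nonneg_left key hP.le
    _ = 1 / 50 * BB ^ 2 * (q ^ (2 * ((20 : ℝ) * n / 11) / d) *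
        q ^ ((n : ℝ) + 9 * n / 11 * (1 - 5 / (d : ℝ))) * q ^ ((17 : ℝ) / 100 * n)) := by ring
    _ ≤ 1 / 50 * BB ^ 2 * q ^ ((2 - 5 / (d : ℝ)) * n) := by
        apply mul_le_mul_of_nonneg_left e1 (by positivity)

/-- the numerical inequality for the second class -/
lemma numB {q : ℝ} {d n : ℕ} (hq : 3 ≤ q) (hd : 10 ^ 6 ≤ d) (hn : 9 * d ≤ 20 * n) :
    4 * q ^ (2 * ((20 : ℝ) * n / 9) / d) * (kap d ^ 2 * q ^ ((2 - 10 / (d : ℝ)) * n)) ≤
      1 / 50 * BB ^ 2 * (q ^ ((2 - 5 / (d : ℝ)) * n) / (n : ℝ) ^ 5) := by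
  have hq0 : 0 < q := by linarith
  have hd' : (10 ^ 6 : ℝ) ≤ d := by exact_mod_cast hd
  have hd0 : (0 : ℝ) < d := by linarith
  have hn' : 9 * (d : ℝ) ≤ 20 * n := by exact_mod_cast hn
  have hn1 : (450000 : ℝ) ≤ n := by linarith
  have hn0 : (0 : ℝ) < n := by linarith
  have key : 4 * 50 * kap d ^ 2 * (n : ℝ) ^ 5 ≤ BB ^ 2 * q ^ ((5 : ℝ) / 9 * (n / d)) := by
    have h1 : ((5 : ℝ) / 9 * (n / d)) ^ 5 / (Nat.factorial 5 : ℝ) ≤ q ^ ((5 : ℝ) / 9 * (n / d)) :=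
      (Real.pow_div_factorial_le_exp _ (by positivity) 5).trans (exp_le_rpow hq (by positivity))
    have h2 : 4 * 50 * kap d ^ 2 * (n : ℝ) ^ 5 ≤
        BB ^ 2 * (((5 : ℝ) / 9 * (n / d)) ^ 5 / (Nat.factorial 5 : ℝ)) := by
      have e : BB ^ 2 * (((5 : ℝ) / 9 * (n / d)) ^ 5 / (Nat.factorial 5 : ℝ)) =
          (BB ^ 2 * (((5 : ℝ) / 9) ^ 5 / (Nat.factorial 5 : ℝ)) / (d : ℝ) ^ 5) * (n : ℝ) ^ 5 := by
        ring
      rw [e]
      apply mul_le_mul_of_nonneg_right _ (by positivity)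
      rw [le_div_iff₀ (by positivity)]
      have e2 : 4 * 50 * kap d ^ 2 * (d : ℝ) ^ 5 = 200 / 10 ^ 16 * (1 / (d : ℝ)) := by
        unfold kap
        field_simp
        norm_num
      rw [e2]
      have h3 : 1 / (d : ℝ) ≤ 1 := by
        rw [div_le_one hd0]
        linarith
      have h4 : (200 : ℝ) / 10 ^ 16 * (1 / (d : ℝ)) ≤ 200 / 10 ^ 16 * 1 :=
        mul_le_mul_of_nonneg_left h3 (by norm_num)
      refine h4.trans ?_
      unfold BB
      norm_num [Nat.factorial]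
    have hB : (0 : ℝ) ≤ BB ^ 2 := by positivity
    exact h2.trans (mul_le_mul_of_nonneg_left h1 hB)
  have e1 : q ^ (2 * ((20 : ℝ) * n / 9) / d) * q ^ ((2 - 10 / (d : ℝ)) * n) *
      q ^ ((5 : ℝ) / 9 * (n / d)) = q ^ ((2 - 5 / (d : ℝ)) * n) := by
    rw [← Real.rpow_add hq0, ← Real.rpow_add hq0]
    congr 1
    field_simp
    ring
  have hn5 : (0 : ℝ) < (n : ℝ) ^ 5 := by positivity
  rw [← mul_div_assoc (1 / 50 * BB ^ 2), le_div_iff₀ hn5]
  have hP : 0 < q ^ (2 * ((20 : ℝ) * n / 9) / d) * q ^ ((2 - 10 / (d : ℝ)) * n) := by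
    positivity
  calc 4 * q ^ (2 * ((20 : ℝ) * n / 9) / d) * (kap d ^ 2 * q ^ ((2 - 10 / (d : ℝ)) * n)) * (n : ℝ) ^ 5
      = 1 / 50 * ((q ^ (2 * ((20 : ℝ) * n / 9) / d) * q ^ ((2 - 10 / (d : ℝ)) * n)) *
        (4 * 50 * kap d ^ 2 * (n : ℝ) ^ 5)) := by ring
    _ ≤ 1 / 50 * ((q ^ (2 * ((20 : ℝ) * n / 9) / d) * q ^ ((2 - 10 / (d : ℝ)) * n)) *
        (BB ^ 2 * q ^ ((5 : ℝ) / 9 * (n / d)))) := by
        apply mul_le_mul_of_nonneg_left _ (by norm_num)
        exact mul_le_mul_of_nonneg_left key hP.le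
    _ = 1 / 50 * BB ^ 2 * (q ^ (2 * ((20 : ℝ) * n / 9) / d) * q ^ ((2 - 10 / (d : ℝ)) * n) *
        q ^ ((5 : ℝ) / 9 * (n / d))) := by ring
    _ = 1 / 50 * BB ^ 2 * q ^ ((2 - 5 / (d : ℝ)) * n) := by rw [e1]

lemma norm_sqrt_pow (q : ℝ) (hq : 0 < q) (m : ℕ) (ε z : ℂ) (hε : ‖ε‖ = 1) :
    ‖ε * (Real.sqrt q : ℂ) ^ m * conj z‖ ^ 2 = q ^ m * ‖z‖ ^ 2 := by
  rw [norm_mul, norm_mul, hε, norm_pow, RCLike.norm_conj, Complex.norm_real, Real.norm_eq_abs,
    abs_of_nonneg (Real.sqrt_nonneg q), one_mul, mul_pow, ← pow_mul, mul_comm m 2, pow_mul,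
    Real.sq_sqrt hq.le]

theorem t_TB2 (hC : S_CNT) : S_TB2 := by
  refine ⟨10 ^ 6, fun d hd F _ _ hF n hn S D ε c e hS => ?_⟩
  have hq : 3 ≤ qq F := by
    unfold qq
    exact_mod_cast hF
  have hq0 : 0 < qq F := by linarith
  have hq1 : 1 ≤ qq F := by linarith
  rcases S.eq_empty_or_nonempty with rfl | ⟨p0, hp0⟩
  · simp only [Finset.sum_empty]
    positivity
  have hd1 : 1 ≤ d := le_trans (by norm_num) hd
  have hd' : (10 ^ 6 : ℝ) ≤ d := by exact_mod_cast hd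
  have hd0 : (0 : ℝ) < d := by linarith
  have h9 : 9 * d ≤ 20 * n := by
    obtain ⟨-, h1, h2, -⟩ := hS p0 hp0
    have h3 : 1 ≤ p0.1.natDegree + max 2 p0.2.1 - 1 := by
      have : 2 ≤ max 2 p0.2.1 := le_max_left _ _
      omega
    have h4 : d * 1 ≤ d * (p0.1.natDegree + max 2 p0.2.1 - 1) := Nat.mul_le_mul_left d h3
    omega
  have h5d : (5 : ℝ) / d ≤ 1 / 100 := by
    rw [div_le_iff₀ hd0]
    linarith
  have h10d : (10 : ℝ) / d ≤ 1 / 100 := by
    rw [div_le_iff₀ hd0]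
    linarith
  have hnR : (0 : ℝ) < n := by exact_mod_cast hn
  -- the right side
  have hR : (1 / 5 * BB * w2 (qq F) d n) ^ 2 =
      1 / 50 * BB ^ 2 * (qq F ^ ((2 - 5 / (d : ℝ)) * n) / (n : ℝ) ^ 5) +
      1 / 50 * BB ^ 2 * (qq F ^ ((2 - 5 / (d : ℝ)) * n) / (n : ℝ) ^ 5) := by
    rw [mul_pow, mul_pow, w2_sq _ hq0]
    ring
  rw [hR, ← Finset.sum_filter_add_sum_filter_not S (fun p => 11 * D p < 20 * n)]
  apply add_le_add
  · -- first class
    have hb : ∀ p ∈ S.filter (fun p => 11 * D p < 20 * n),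
        ‖tauX (qq F) (D p) n (ε p) (c p) (e p)‖ ^ 2 ≤
          qq F ^ ((n : ℝ) + 9 * n / 11 * (1 - 5 / (d : ℝ))) := by
      intro p hp
      rw [Finset.mem_filter] at hp
      obtain ⟨hpS, hpD⟩ := hp
      obtain ⟨-, -, -, hε, -, he0, hek, -⟩ := hS p hpS
      unfold tauX
      split_ifs with h1 h2
      · rw [norm_zero, zero_pow (by norm_num)]
        positivity
      · omega
      · rw [norm_sqrt_pow _ hq0 _ _ _ hε]
        rcases Nat.eq_zero_or_pos (D p - n) with h0 | hpos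
        · rw [h0]
          have e1 : 2 * n - D p = n := by omega
          rw [e1]
          have h3 : ‖e p 0‖ ^ 2 ≤ 1 := by
            have := norm_nonneg (e p 0)
            nlinarith
          calc qq F ^ n * ‖e p 0‖ ^ 2 ≤ qq F ^ n * 1 :=
                mul_le_mul_of_nonneg_left h3 (by positivity)
            _ = qq F ^ (n : ℝ) := by rw [mul_one, Real.rpow_natCast]
            _ ≤ _ := by
                apply Real.rpow_le_rpow_of_exponent_le hq1
                have : 0 ≤ 9 * (n : ℝ) / 11 * (1 - 5 / (d : ℝ)) :=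
                  mul_nonneg (by positivity) (by linarith)
                linarith
        · obtain ⟨k, hk⟩ : ∃ k, D p = n + k := ⟨D p - n, by omega⟩
          have e0 : D p - n = k := by omega
          have e1 : 2 * n - D p = n - k := by omega
          rw [e0, e1]
          have hk1 : 1 ≤ k := by omega
          have hkn : k < n := by omega
          have h11 : 11 * k ≤ 9 * n := by omega
          have hkR : (0 : ℝ) < k := by exact_mod_cast hk1
          have h11R : (k : ℝ) ≤ 9 * n / 11 := by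
            have : (11 * k : ℝ) ≤ 9 * n := by exact_mod_cast h11
            linarith
          have h3 : ‖e p k‖ ^ 2 ≤ qq F ^ ((2 - 5 / (d : ℝ)) * k) := by
            have h4 : ‖e p k‖ ^ 2 ≤ (3 * BB * w2 (qq F) d k) ^ 2 :=
              pow_le_pow_left₀ (norm_nonneg _) (hek k hk1 hkn) 2
            refine h4.trans ?_
            rw [mul_pow, w2_sq _ hq0]
            have h5 : (3 * BB) ^ 2 ≤ 1 := by
              unfold BB
              norm_num
            have h6 : qq F ^ ((2 - 5 / (d : ℝ)) * k) / (k : ℝ) ^ 5 ≤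
                qq F ^ ((2 - 5 / (d : ℝ)) * k) := by
              apply div_le_self (by positivity)
              apply one_le_pow₀
              exact_mod_cast hk1
            calc (3 * BB) ^ 2 * (qq F ^ ((2 - 5 / (d : ℝ)) * k) / (k : ℝ) ^ 5)
                ≤ 1 * qq F ^ ((2 - 5 / (d : ℝ)) * k) :=
                  mul_le_mul h5 h6 (by positivity) (by norm_num)
              _ = _ := one_mul _
          calc qq F ^ (n - k) * ‖e p k‖ ^ 2 ≤ qq F ^ (n - k) * qq F ^ ((2 - 5 / (d : ℝ)) * k) :=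
                mul_le_mul_of_nonneg_left h3 (by positivity)
            _ = qq F ^ ((n : ℝ) + k * (1 - 5 / (d : ℝ))) := by
                rw [← Real.rpow_natCast, ← Real.rpow_add hq0, Nat.cast_sub hkn.le]
                congr 1
                ring
            _ ≤ _ := by
                apply Real.rpow_le_rpow_of_exponent_le hq1
                have : (k : ℝ) * (1 - 5 / (d : ℝ)) ≤ 9 * n / 11 * (1 - 5 / (d : ℝ)) :=
                  mul_le_mul_of_nonneg_right h11R (by linarith)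
                linarith
    have hcnt := count_le hC hq hd1 ((20 : ℝ) * n / 11) (S.filter (fun p => 11 * D p < 20 * n)) (by
      intro p hp
      rw [Finset.mem_filter] at hp
      obtain ⟨hpS, hpD⟩ := hp
      obtain ⟨h1, h2, -⟩ := hS p hpS
      refine ⟨h1, ?_⟩
      have h3 : 11 * (d * (p.1.natDegree + max 2 p.2.1 - 1)) ≤ 20 * n := by omega
      have h4 : (11 : ℝ) * ((d * (p.1.natDegree + max 2 p.2.1 - 1) : ℕ) : ℝ) ≤ 20 * n := by
        exact_mod_cast h3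
      linarith)
    calc _ ≤ ∑ p ∈ S.filter (fun p => 11 * D p < 20 * n),
          qq F ^ ((n : ℝ) + 9 * n / 11 * (1 - 5 / (d : ℝ))) := Finset.sum_le_sum hb
      _ = ((S.filter (fun p => 11 * D p < 20 * n)).card : ℝ) *
          qq F ^ ((n : ℝ) + 9 * n / 11 * (1 - 5 / (d : ℝ))) := by
          rw [Finset.sum_const, nsmul_eq_mul]
      _ ≤ 4 * qq F ^ (2 * ((20 : ℝ) * n / 11) / d) *
          qq F ^ ((n : ℝ) + 9 * n / 11 * (1 - 5 / (d : ℝ))) :=
          mul_le_mul_of_nonneg_right hcnt (by positivity)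
      _ ≤ _ := numA hq hd h9
  · -- second class
    have hb : ∀ p ∈ S.filter (fun p => ¬ 11 * D p < 20 * n),
        ‖tauX (qq F) (D p) n (ε p) (c p) (e p)‖ ^ 2 ≤
          kap d ^ 2 * qq F ^ ((2 - 10 / (d : ℝ)) * n) := by
      intro p hp
      rw [Finset.mem_filter] at hp
      obtain ⟨hpS, hpD⟩ := hp
      obtain ⟨-, -, h209, hε, hc, he0, -, hek⟩ := hS p hpS
      have hsq : ∀ m : ℕ, (kap d * qq F ^ ((1 - 5 / (d : ℝ)) * m)) ^ 2 =
          kap d ^ 2 * qq F ^ ((2 - 10 / (d : ℝ)) * m) := by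
        intro m
        rw [mul_pow, ← Real.rpow_natCast (qq F ^ _), ← Real.rpow_mul hq0.le]
        congr 2
        push_cast
        ring
      unfold tauX
      split_ifs with h1 h2
      · rw [norm_zero, zero_pow (by norm_num)]
        positivity
      · rw [← hsq]
        exact pow_le_pow_left₀ (norm_nonneg _) (hc h2) 2
      · rw [norm_sqrt_pow _ hq0 _ _ _ hε]
        obtain ⟨k, hk⟩ : ∃ k, D p = n + k := ⟨D p - n, by omega⟩
        have e0 : D p - n = k := by omega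
        have e1 : 2 * n - D p = n - k := by omega
        rw [e0, e1]
        have hkn : k < n := by omega
        have hk1 : 1 ≤ k := by omega
        have h3 : ‖e p k‖ ^ 2 ≤ kap d ^ 2 * qq F ^ ((2 - 10 / (d : ℝ)) * k) := by
          rw [← hsq]
          exact pow_le_pow_left₀ (norm_nonneg _) (hek k hk1 hkn (by omega) (by omega)) 2
        calc qq F ^ (n - k) * ‖e p k‖ ^ 2
            ≤ qq F ^ (n - k) * (kap d ^ 2 * qq F ^ ((2 - 10 / (d : ℝ)) * k)) :=
              mul_le_mul_of_nonneg_left h3 (by positivity)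
          _ = kap d ^ 2 * (qq F ^ (n - k) * qq F ^ ((2 - 10 / (d : ℝ)) * k)) := by ring
          _ = kap d ^ 2 * qq F ^ ((n : ℝ) + k * (1 - 10 / (d : ℝ))) := by
              rw [← Real.rpow_natCast (qq F) (n - k), ← Real.rpow_add hq0, Nat.cast_sub hkn.le]
              congr 2
              ring
          _ ≤ kap d ^ 2 * qq F ^ ((2 - 10 / (d : ℝ)) * n) := by
              apply mul_le_mul_of_nonneg_left _ (by positivity)
              apply Real.rpow_le_rpow_of_exponent_le hq1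
              have h4 : (k : ℝ) * (1 - 10 / (d : ℝ)) ≤ n * (1 - 10 / (d : ℝ)) :=
                mul_le_mul_of_nonneg_right (by exact_mod_cast hkn.le) (by linarith)
              linarith
    have hcnt := count_le hC hq hd1 ((20 : ℝ) * n / 9) (S.filter (fun p => ¬ 11 * D p < 20 * n)) (by
      intro p hp
      rw [Finset.mem_filter] at hp
      obtain ⟨hpS, hpD⟩ := hp
      obtain ⟨h1, h2, h3, -⟩ := hS p hpS
      refine ⟨h1, ?_⟩
      have h3 : 9 * (d * (p.1.natDegree + max 2 p.2.1 - 1)) ≤ 20 * n := by omega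
      have h4 : (9 : ℝ) * ((d * (p.1.natDegree + max 2 p.2.1 - 1) : ℕ) : ℝ) ≤ 20 * n := by
        exact_mod_cast h3
      linarith)
    calc _ ≤ ∑ p ∈ S.filter (fun p => ¬ 11 * D p < 20 * n),
          kap d ^ 2 * qq F ^ ((2 - 10 / (d : ℝ)) * n) := Finset.sum_le_sum hb
      _ = ((S.filter (fun p => ¬ 11 * D p < 20 * n)).card : ℝ) *
          (kap d ^ 2 * qq F ^ ((2 - 10 / (d : ℝ)) * n)) := by
          rw [Finset.sum_const, nsmul_eq_mul]
      _ ≤ 4 * qq F ^ (2 * ((20 : ℝ) * n / 9) / d) *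
          (kap d ^ 2 * qq F ^ ((2 - 10 / (d : ℝ)) * n)) :=
          mul_le_mul_of_nonneg_right hcnt (by positivity)
      _ ≤ _ := numB hq hd h9

end Pool.Agent.Q249.PX
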